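import Pool.Agent.P.MP_dfd561_co.Hit

/-!
Switching disjoint sub-cubes in the permutation `∑ α i = 0` over an elementary abelian 2-group.
-/

namespace Pool.Agent.P.MP_dfd561_co

open Finset

variable {ι G : Type*} [Fintype ι] [DecidableEq ι] [AddCommGroup G]

/-- `p` lies on the sub-cube spanned by `α` in the direction `∑ α i`. -/
def OnCube (α p : ι → G) : Prop := ∀ i, p i = α i ∨ p i = α i + ∑ j, α j

lemma sum_update (γ : ι → G) (i : ι) (x : G) :
    ∑ j, Function.update γ i x j = ∑ j, γ j - γ i + x := by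
  rw [Finset.sum_update_of_mem (Finset.mem_univ i), Finset.sdiff_singleton_eq_erase,
    ← Finset.add_sum_erase _ _ (Finset.mem_univ i)]
  abel

lemma onCube_flip (h2 : ∀ x : G, x + x = 0) (α γ : ι → G) (i : ι) (x : G)
    (h : OnCube α (Function.update γ i x)) :
    OnCube α (Function.update γ i (x + ∑ j, α j)) := by
  intro k
  have hk := h k
  by_cases hki : k = i
  · subst hki
    simp only [Function.update_self] at hk ⊢
    rcases hk with hk | hk
    · right; rw [hk]
    · left; rw [hk, add_assoc, h2, add_zero]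
  · simpa only [Function.update_of_ne hki] using hk

/-- The switched permutation. -/
def Sw (S : Finset (ι → G)) (γ : ι → G) : Prop :=
  (∃ α ∈ S, OnCube α γ ∧ ∑ j, γ j = ∑ j, α j) ∨ (∑ j, γ j = 0 ∧ ∀ α ∈ S, ¬ OnCube α γ)

lemma sw_line (h2 : ∀ x : G, x + x = 0) (S : Finset (ι → G))
    (hS : ∀ α ∈ S, ∀ β ∈ S, (∃ p : ι → G, ∑ j, p j = 0 ∧ OnCube α p ∧ OnCube β p) → α = β)
    (i : ι) (γ : ι → G) : ∃! x : G, Sw S (Function.update γ i x) := by
  set x0 : G := γ i - ∑ j, γ j with hx0
  have hsum : ∀ x, ∑ j, Function.update γ i x j = x - x0 := by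
    intro x; rw [sum_update, hx0]; abel
  have hneg : ∀ x : G, -x = x := fun x => neg_eq_of_add_eq_zero_left (h2 x)
  have hback : ∀ x (β : ι → G), OnCube β (Function.update γ i x) → x - x0 = ∑ j, β j →
      OnCube β (Function.update γ i x0) := by
    intro x β h1 h3
    have := onCube_flip h2 β γ i x h1
    have h4 : x + ∑ j, β j = x0 := by
      rw [← h3, ← add_sub_assoc, h2, zero_sub, hneg]
    rwa [h4] at this
  by_cases hc : ∃ α ∈ S, OnCube α (Function.update γ i x0)
  · obtain ⟨α, hα, hon⟩ := hc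
    refine ⟨x0 + ∑ j, α j, Or.inl ⟨α, hα, onCube_flip h2 α γ i x0 hon, ?_⟩, ?_⟩
    · rw [hsum]; abel
    · rintro x (⟨β, hβ, h1, h3⟩ | ⟨h1, h3⟩)
      · rw [hsum] at h3
        have := hS α hα β hβ ⟨_, by rw [hsum, sub_self], hon, hback x β h1 h3⟩
        rw [this, ← h3]; abel
      · rw [hsum, sub_eq_zero] at h1
        subst h1
        exact absurd hon (h3 α hα)
  · push Not at hc
    refine ⟨x0, Or.inr ⟨by rw [hsum, sub_self], hc⟩, ?_⟩
    rintro x (⟨β, hβ, h1, h3⟩ | ⟨h1, h3⟩)
    · rw [hsum] at h3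
      exact absurd (hback x β h1 h3) (hc β hβ)
    · rwa [hsum, sub_eq_zero] at h1

lemma nb_card [Fintype G] [DecidableEq G] (h2 : ∀ x : G, x + x = 0) (β : ι → G)
    (Nβ : Finset (ι → G))
    (hN : ∀ α ∈ Nβ, ∃ p : ι → G, OnCube α p ∧ OnCube β p) :
    Nβ.card ≤ 4 ^ Fintype.card ι * Fintype.card G := by
  have hsub : Nβ ⊆ (Finset.univ : Finset (Finset ι × Finset ι × G)).image
      (fun t i => β i + (if i ∈ t.1 then ∑ j, β j else 0) + (if i ∈ t.2.1 then t.2.2 else 0)) := by
    intro α hα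
    obtain ⟨p, h1, h3⟩ := hN α hα
    refine Finset.mem_image.mpr ⟨(Finset.univ.filter fun i => p i ≠ β i,
      Finset.univ.filter fun i => p i ≠ α i, ∑ j, α j), Finset.mem_univ _, ?_⟩
    funext i
    simp only [Finset.mem_filter, Finset.mem_univ, true_and]
    have e1 : β i + (if p i ≠ β i then ∑ j, β j else 0) = p i := by
      split_ifs with h
      · exact ((h3 i).resolve_left h).symm
      · rw [add_zero]; exact (not_not.mp h).symm
    rw [e1]
    split_ifs with h
    · rw [(h1 i).resolve_left h, add_assoc, h2, add_zero]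
    · rw [add_zero]; exact not_not.mp h
  refine (Finset.card_le_card hsub).trans (Finset.card_image_le.trans (le_of_eq ?_))
  rw [Finset.card_univ, Fintype.card_prod, Fintype.card_prod, Fintype.card_finset,
    ← mul_assoc, ← mul_pow]
  norm_num

/-- Main construction over an elementary abelian 2-group. -/
theorem exists_perm [Fintype G] [DecidableEq G] [Nonempty ι] (h2 : ∀ x : G, x + x = 0) :
    ∃ A : (ι → G) → Prop, (∀ (i : ι) (γ : ι → G), ∃! x : G, A (Function.update γ i x)) ∧
      ∀ T : ι → Finset G, (∀ α : ι → G, (∀ i, α i ∈ T i) → ¬ A α) →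
        ∏ i, (T i).card ≤ 4 ^ (Fintype.card ι + 1) * Fintype.card ι * Fintype.card G ^ 2 := by
  classical
  set m := Fintype.card ι with hm
  set n := Fintype.card G with hn
  have hm0 : 0 < m := Fintype.card_pos
  have hn0 : 0 < n := Fintype.card_pos
  set Nb : (ι → G) → Finset (ι → G) := fun β => Finset.univ.filter fun α =>
    ∃ p : ι → G, ∑ j, p j = 0 ∧ OnCube α p ∧ OnCube β p with hNb
  set F : Finset (ι → Finset G) := Finset.univ.filter fun T =>
    4 ^ (m + 1) * m * n ^ 2 < ∏ i, (T i).card with hF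
  obtain ⟨S, hS, hhit⟩ := hit Nb (4 ^ m * n) (by positivity)
    (by
      intro a b hab
      simp only [hNb, Finset.mem_filter, Finset.mem_univ, true_and] at hab ⊢
      obtain ⟨p, h1, h3, h4⟩ := hab
      exact ⟨p, h1, h4, h3⟩)
    (by
      intro β
      apply nb_card h2 β
      intro α hα
      obtain ⟨p, _, h3, h4⟩ := (Finset.mem_filter.mp hα).2
      exact ⟨p, h3, h4⟩)
    Fintype.card_pos (fun T : ι → Finset G => Fintype.piFinset T) F
    (by
      have h1 : ∀ T ∈ F, Real.exp (-(((Fintype.piFinset T).card : ℝ) / (4 * ((4 ^ m * n : ℕ) : ℝ))))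
          ≤ Real.exp (-((m * n : ℕ) : ℝ)) := by
        intro T hT
        rw [Real.exp_le_exp, neg_le_neg_iff, le_div_iff₀ (by positivity), Fintype.card_piFinset]
        have h3 := (Finset.mem_filter.mp hT).2.le
        have h4 : m * n * (4 * (4 ^ m * n)) = 4 ^ (m + 1) * m * n ^ 2 := by ring
        rw [← h4] at h3
        exact_mod_cast h3
      refine lt_of_le_of_lt (Finset.sum_le_sum h1) ?_
      rw [Finset.sum_const, nsmul_eq_mul]
      have h5 : F.card ≤ 2 ^ (m * n) := by
        refine (Finset.card_le_univ F).trans (le_of_eq ?_)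
        rw [Fintype.card_fun, Fintype.card_finset, ← pow_mul, mul_comm]
      have h6 : (F.card : ℝ) ≤ 2 ^ (m * n) := by exact_mod_cast h5
      have h7 : (2 : ℝ) ^ (m * n) < Real.exp ((m * n : ℕ) : ℝ) := by
        rw [← Real.exp_one_pow]
        apply pow_lt_pow_left₀ _ (by norm_num) (Nat.mul_pos hm0 hn0).ne'
        have := Real.add_one_lt_exp (x := 1) one_ne_zero
        linarith
      rw [Real.exp_neg, ← div_eq_mul_inv, div_lt_one (Real.exp_pos _)]
      linarith)
  refine ⟨Sw S, sw_line h2 S ?_, ?_⟩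
  · intro α hα β hβ h
    exact hS α hα β hβ (Finset.mem_filter.mpr ⟨Finset.mem_univ _, h⟩)
  · intro T hT
    by_contra hlt
    obtain ⟨a, ha, haT⟩ := hhit T (Finset.mem_filter.mpr ⟨Finset.mem_univ _, not_le.mp hlt⟩)
    exact hT a (Fintype.mem_piFinset.mp haT) (Or.inl ⟨a, ha, fun i => Or.inl rfl, rfl⟩)

/-- The construction on `Fin (2 ^ r)`. -/
theorem exists_perm_fin (d r : ℕ) :
    ∃ A : (Fin (d + 1) → Fin (2 ^ r)) → Prop,
      (∀ (i : Fin (d + 1)) (γ : Fin (d + 1) → Fin (2 ^ r)),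
        ∃! x : Fin (2 ^ r), A (Function.update γ i x)) ∧
      ∀ T : Fin (d + 1) → Finset (Fin (2 ^ r)), (∀ α, (∀ i, α i ∈ T i) → ¬ A α) →
        ∏ i, (T i).card ≤ 4 ^ (d + 2) * (d + 1) * (2 ^ r) ^ 2 := by
  have hc : Fintype.card (Fin r → ZMod 2) = 2 ^ r := by simp
  let e : Fin (2 ^ r) ≃ (Fin r → ZMod 2) := (Fintype.equivFinOfCardEq hc).symm
  have h := @exists_perm (Fin (d + 1)) (Fin (2 ^ r)) _ _ e.addCommGroup _ _ _ (by
    intro x
    apply e.injective
    rw [e.add_def, e.zero_def, e.apply_symm_apply, e.apply_symm_apply]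
    funext j
    exact CharTwo.add_self_eq_zero _)
  simpa only [Fintype.card_fin] using h

end Pool.Agent.P.MP_dfd561_co
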