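import Mathlib

/-!
An independent hitting set: if a symmetric relation on a finite set has degrees at most
`D`, a family of large sets is met by a set of pairwise unrelated elements.
-/

namespace Pool.Agent.P.MP_dfd561_co

open Finset

variable {Ω : Type*} [Fintype Ω] [DecidableEq Ω]

lemma sum_inter_le (Nb : Ω → Finset Ω) (D : ℕ) (hsymm : ∀ a b, a ∈ Nb b → b ∈ Nb a)
    (hD : ∀ a, (Nb a).card ≤ D) (U : Finset Ω) :
    ∑ β, (U ∩ Nb β).card ≤ D * U.card := by
  have h1 : ∀ β, (U ∩ Nb β).card = ∑ a ∈ U, if a ∈ Nb β then 1 else 0 := by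
    intro β
    rw [← Finset.filter_mem_eq_inter, Finset.card_filter]
  simp_rw [h1]
  rw [Finset.sum_comm, mul_comm, ← smul_eq_mul, ← Finset.sum_const]
  apply Finset.sum_le_sum
  intro a _
  rw [← Finset.card_filter]
  refine le_trans (Finset.card_le_card ?_) (hD a)
  intro β hβ
  exact hsymm _ _ (Finset.mem_filter.mp hβ).2

lemma avg_step (Nb : Ω → Finset Ω) (D : ℕ) (hsymm : ∀ a b, a ∈ Nb b → b ∈ Nb a)
    (hD : ∀ a, (Nb a).card ≤ D) (U : Finset Ω) (l : ℝ) (hl0 : 0 ≤ l) (hl : 4 * D * l ≤ 1)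
    (hM : 0 < Fintype.card Ω) :
    ∑ β, (if β ∈ U then 0 else Real.exp (-(l * ((U \ Nb β).card : ℝ))))
      ≤ (Fintype.card Ω : ℝ) *
        Real.exp (-((l + 1 / (2 * (Fintype.card Ω : ℝ))) * (U.card : ℝ))) := by
  set M : ℝ := (Fintype.card Ω : ℝ) with hMdef
  have hM' : 0 < M := by rw [hMdef]; exact_mod_cast hM
  have hE : 0 < Real.exp (-(l * (U.card : ℝ))) := Real.exp_pos _
  have h1 : ∀ β, (if β ∈ U then 0 else Real.exp (-(l * ((U \ Nb β).card : ℝ))))
      ≤ Real.exp (-(l * (U.card : ℝ))) *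
        ((if β ∈ U then 0 else 1) + 2 * l * ((U ∩ Nb β).card : ℝ)) := by
    intro β
    split_ifs with h
    · positivity
    · have h2 : ((U \ Nb β).card : ℝ) = U.card - (U ∩ Nb β).card := by
        have := Finset.card_sdiff_add_card_inter U (Nb β)
        rw [← this]; push_cast; ring
      have h3 : -(l * ((U \ Nb β).card : ℝ))
          = -(l * (U.card : ℝ)) + l * ((U ∩ Nb β).card : ℝ) := by rw [h2]; ring
      rw [h3, Real.exp_add]
      apply mul_le_mul_of_nonneg_left _ hE.le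
      have hx0 : 0 ≤ l * ((U ∩ Nb β).card : ℝ) := by positivity
      have hc : ((U ∩ Nb β).card : ℝ) ≤ D := by
        exact_mod_cast (Finset.card_le_card Finset.inter_subset_right).trans (hD β)
      have hx1 : l * ((U ∩ Nb β).card : ℝ) ≤ 1 := by
        have := mul_le_mul_of_nonneg_left hc hl0
        have : (0 : ℝ) ≤ l * D := by positivity
        nlinarith
      have h4 := Real.abs_exp_sub_one_le (x := l * ((U ∩ Nb β).card : ℝ))
        (by rw [abs_of_nonneg hx0]; exact hx1)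
      rw [abs_of_nonneg hx0] at h4
      have := le_abs_self (Real.exp (l * ((U ∩ Nb β).card : ℝ)) - 1)
      linarith
  refine (Finset.sum_le_sum fun β _ => h1 β).trans ?_
  rw [← Finset.mul_sum, Finset.sum_add_distrib, ← Finset.mul_sum]
  have h5 : ∑ β : Ω, (if β ∈ U then (0 : ℝ) else 1) = M - U.card := by
    have : ∀ β : Ω, (if β ∈ U then (0 : ℝ) else 1) = 1 - (if β ∈ U then (1 : ℝ) else 0) := by
      intro β; split_ifs <;> simp
    simp_rw [this]
    rw [Finset.sum_sub_distrib]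
    simp [hMdef]
  have h6 : ∑ β : Ω, ((U ∩ Nb β).card : ℝ) ≤ D * U.card := by
    exact_mod_cast sum_inter_le Nb D hsymm hD U
  have hU : (0 : ℝ) ≤ U.card := Nat.cast_nonneg _
  have h7 : M - U.card + 2 * l * ∑ β : Ω, ((U ∩ Nb β).card : ℝ) ≤ M - U.card / 2 := by
    have := mul_le_mul_of_nonneg_left h6 (show 0 ≤ 2 * l by positivity)
    nlinarith
  have h8 : M - U.card / 2 ≤ M * Real.exp (-(1 / (2 * M) * (U.card : ℝ))) := by
    have := Real.add_one_le_exp (-(1 / (2 * M) * (U.card : ℝ)))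
    have h9 := mul_le_mul_of_nonneg_left this hM'.le
    have h10 : M * (-(1 / (2 * M) * (U.card : ℝ)) + 1) = M - U.card / 2 := by
      field_simp
      ring
    linarith
  rw [h5]
  have h11 : -((l + 1 / (2 * M)) * (U.card : ℝ))
      = -(l * (U.card : ℝ)) + -(1 / (2 * M) * (U.card : ℝ)) := by ring
  rw [h11, Real.exp_add]
  have := mul_le_mul_of_nonneg_left (h7.trans h8) hE.le
  linarith

lemma hit_aux {ι : Type*} (Nb : Ω → Finset Ω) (D : ℕ)
    (hsymm : ∀ a b, a ∈ Nb b → b ∈ Nb a) (hD : ∀ a, (Nb a).card ≤ D)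
    (hM : 0 < Fintype.card Ω) (T : ι → Finset Ω) (k : ℕ)
    (hk : 2 * D * k ≤ Fintype.card Ω + 2 * D) (F : Finset ι) (R : Finset Ω)
    (h : ∑ i ∈ F, Real.exp (-((k : ℝ) / (2 * (Fintype.card Ω : ℝ)) * ((T i ∩ R).card : ℝ))) < 1) :
    ∃ S ⊆ R, (∀ a ∈ S, ∀ b ∈ S, a ∈ Nb b → a = b) ∧ ∀ i ∈ F, ∃ a ∈ S, a ∈ T i := by
  classical
  induction k generalizing F R with
  | zero =>
    refine ⟨∅, Finset.empty_subset _, by simp, fun i hi => ?_⟩
    exfalso
    simp only [Nat.cast_zero, zero_div, zero_mul, neg_zero, Real.exp_zero, sum_const,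
      nsmul_eq_mul, mul_one] at h
    have : 1 ≤ F.card := Finset.card_pos.mpr ⟨i, hi⟩
    have : (1 : ℝ) ≤ F.card := by exact_mod_cast this
    linarith
  | succ k ih =>
    set M : ℝ := (Fintype.card Ω : ℝ) with hMdef
    have hM' : 0 < M := by rw [hMdef]; exact_mod_cast hM
    have hk' : 2 * D * k ≤ Fintype.card Ω := by nlinarith
    have hl : 4 * D * ((k : ℝ) / (2 * M)) ≤ 1 := by
      have : (2 * D * k : ℝ) ≤ M := by rw [hMdef]; exact_mod_cast hk'
      rw [← mul_div_assoc, div_le_one (by positivity)]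
      linarith
    have h1 : ∑ β : Ω, ∑ i ∈ F, (if β ∈ T i ∩ R then 0 else
        Real.exp (-((k : ℝ) / (2 * M) * (((T i ∩ R) \ Nb β).card : ℝ)))) < ∑ β : Ω, (1 : ℝ) := by
      rw [Finset.sum_comm]
      have h2 := Finset.sum_le_sum fun i (_ : i ∈ F) =>
        avg_step Nb D hsymm hD (T i ∩ R) ((k : ℝ) / (2 * M)) (by positivity) hl hM
      refine lt_of_le_of_lt h2 ?_
      rw [← Finset.mul_sum]
      have h3 : (k : ℝ) / (2 * M) + 1 / (2 * M) = ((k + 1 : ℕ) : ℝ) / (2 * M) := by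
        push_cast; ring
      rw [← hMdef, h3]
      have := mul_lt_mul_of_pos_left h hM'
      simpa [hMdef] using this
    obtain ⟨β, _, hβ⟩ := Finset.exists_lt_of_sum_lt h1
    obtain ⟨S, hSR, hind, hhit⟩ := ih (by omega) (F.filter fun i => β ∉ T i ∩ R) (R \ Nb β) (by
      refine lt_of_le_of_lt (le_of_eq ?_) hβ
      rw [Finset.sum_filter]
      apply Finset.sum_congr rfl
      intro i _
      rw [Finset.inter_sdiff_assoc]
      split_ifs <;> rfl)
    by_cases hβR : β ∈ R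
    · refine ⟨insert β S, ?_, ?_, ?_⟩
      · exact Finset.insert_subset hβR (hSR.trans Finset.sdiff_subset)
      · intro a ha b hb hab
        rcases Finset.mem_insert.mp ha with rfl | ha' <;>
          rcases Finset.mem_insert.mp hb with rfl | hb'
        · rfl
        · exact absurd (hsymm _ _ hab) (Finset.mem_sdiff.mp (hSR hb')).2
        · exact absurd hab (Finset.mem_sdiff.mp (hSR ha')).2
        · exact hind a ha' b hb' hab
      · intro i hi
        by_cases hβT : β ∈ T i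
        · exact ⟨β, Finset.mem_insert_self _ _, hβT⟩
        · obtain ⟨a, ha, haT⟩ := hhit i (Finset.mem_filter.mpr ⟨hi, fun h =>
            hβT (Finset.mem_inter.mp h).1⟩)
          exact ⟨a, Finset.mem_insert_of_mem ha, haT⟩
    · refine ⟨S, hSR.trans Finset.sdiff_subset, hind, fun i hi => ?_⟩
      exact hhit i (Finset.mem_filter.mpr ⟨hi, fun h => hβR (Finset.mem_inter.mp h).2⟩)

/-- The independent hitting set lemma. -/
theorem hit {ι : Type*} (Nb : Ω → Finset Ω) (D : ℕ) (hD0 : 0 < D)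
    (hsymm : ∀ a b, a ∈ Nb b → b ∈ Nb a) (hD : ∀ a, (Nb a).card ≤ D)
    (hM : 0 < Fintype.card Ω) (T : ι → Finset Ω) (F : Finset ι)
    (h : ∑ i ∈ F, Real.exp (-(((T i).card : ℝ) / (4 * D))) < 1) :
    ∃ S : Finset Ω, (∀ a ∈ S, ∀ b ∈ S, a ∈ Nb b → a = b) ∧ ∀ i ∈ F, ∃ a ∈ S, a ∈ T i := by
  set k := Fintype.card Ω / (2 * D) + 1 with hk
  have h1 : 2 * D * k ≤ Fintype.card Ω + 2 * D := by
    have := Nat.mul_div_le (Fintype.card Ω) (2 * D)
    rw [hk, mul_add]; omega
  have h2 : Fintype.card Ω ≤ 2 * D * k := by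
    have := Nat.lt_mul_div_succ (Fintype.card Ω) (show 0 < 2 * D by omega)
    rw [hk]; omega
  obtain ⟨S, _, h3, h4⟩ := hit_aux Nb D hsymm hD hM T k h1 F Finset.univ (by
    refine lt_of_le_of_lt (Finset.sum_le_sum fun i _ => ?_) h
    rw [Finset.inter_univ, Real.exp_le_exp, neg_le_neg_iff]
    have hM' : (0 : ℝ) < Fintype.card Ω := by exact_mod_cast hM
    have hD' : (0 : ℝ) < D := by exact_mod_cast hD0
    have h5 : (Fintype.card Ω : ℝ) ≤ 2 * D * k := by exact_mod_cast h2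
    have h6 : 1 / (4 * D : ℝ) ≤ (k : ℝ) / (2 * (Fintype.card Ω : ℝ)) := by
      rw [div_le_div_iff₀ (by positivity) (by positivity)]
      linarith
    have := mul_le_mul_of_nonneg_right h6 (Nat.cast_nonneg (α := ℝ) (T i).card)
    rwa [one_div, ← div_eq_inv_mul] at this)
  exact ⟨S, h3, h4⟩

end Pool.Agent.P.MP_dfd561_co
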